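import Pool.Agent.VTP.StmtsW

/-!
Row KNP of squad VTP: the invariant of knots.
-/

set_option autoImplicit false

namespace Pool.Agent.VTP.H97

open Finset Pool.Agent.ZOL Pool.Agent.VTP

/-- the number of letters with label `x` -/
def cnt (x : ℕ) (w : Word) : ℕ := w.countP (fun l => decide (l.1 = x))

theorem cnt_append (x : ℕ) (u v : Word) : cnt x (u ++ v) = cnt x u + cnt x v := by
  simp [cnt, List.countP_append]

theorem cnt_gauss {w : Word} (hw : IsGauss w) (x : ℕ) : cnt x w ≤ 2 := by
  by_cases hx : x ∈ labels w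
  · obtain ⟨l, hl⟩ := hw x hx
    have h : (sub {x} w).length = 2 := by rw [hl]; rfl
    have h' : cnt x w = (sub {x} w).length := by
      rw [cnt, sub, List.countP_eq_length_filter]
      simp
    omega
  · have h : cnt x w = 0 := by
      rw [cnt, List.countP_eq_zero]
      intro l hl hlx
      exact hx (by
        have := of_decide_eq_true hlx
        rw [← this]
        simp only [labels, List.mem_toFinset, List.mem_map]
        exact ⟨l, hl, rfl⟩)
    omega

theorem cnt_flat (x : ℕ) (L L' : List Word) (h : L.Perm L') :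
    cnt x L.flatten = cnt x L'.flatten := by
  unfold cnt
  exact List.Perm.countP_eq _ (List.Perm.flatten h)

theorem distinct {u₀ u₁ u₂ u₃ s₁ s₂ s₃ : Word} {a b c : ℕ} {t m d e : Bool}
    (h : [s₁, s₂, s₃].Perm [topPair a b t m d e, midPair a c t m d e, botPair b c t m d e])
    (hw : IsGauss (u₀ ++ s₁ ++ u₁ ++ s₂ ++ u₂ ++ s₃ ++ u₃)) :
    a ≠ b ∧ a ≠ c ∧ b ≠ c := by
  have key : ∀ x, cnt x (topPair a b t m d e) + cnt x (midPair a c t m d e) +
      cnt x (botPair b c t m d e) ≤ 2 := by
    intro x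
    have h1 := cnt_gauss hw x
    have h2 := cnt_flat x _ _ h
    simp only [List.flatten_cons, List.flatten_nil, List.append_nil, cnt_append] at h1 h2
    omega
  refine ⟨?_, ?_, ?_⟩
  · rintro rfl
    have := key a
    revert this
    cases t <;> cases m <;> cases d <;>
      simp [cnt, topPair, midPair, botPair, List.countP_cons] <;> omega
  · rintro rfl
    have := key a
    revert this
    cases t <;> cases m <;> cases d <;>
      simp [cnt, topPair, midPair, botPair, List.countP_cons] <;> omega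
  · rintro rfl
    have := key b
    revert this
    cases t <;> cases m <;> cases d <;>
      simp [cnt, topPair, midPair, botPair, List.countP_cons] <;> omega

theorem step_inv (h1 : Wr1Stmt) (h2 : Wr2Stmt) (hc : CanStmt) (h3 : Wr3Stmt) (hn : WrnStmt)
    {v w : Word} (hs : Step v w) (hv : IsGauss v) (hv' : Planar (shadow v)) (hw : IsGauss w)
    (hw' : Planar (shadow w)) : PW v = PW w := by
  cases hs with
  | rename w σ h => exact (hn _ σ h).symm
  | r1 u v a r o => exact h1 u v a r o hv
  | r2a u v z a b r o => exact h2.1 u v z a b r o hv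
  | r2b u v z a b r o => exact h2.2 u v z a b r o hv
  | r3 u₀ u₁ u₂ u₃ s₁ s₂ s₃ a b c t m d e h =>
    obtain ⟨hab, hac, hbc⟩ := distinct h hv
    obtain ⟨la, lb, lc, α, β, γ, hC⟩ := hc s₁ s₂ s₃ a b c t m d e hab hac hbc h
    exact h3 u₀ u₁ u₂ u₃ s₁ s₂ s₃ la lb lc α β γ hC hv hv' hw hw'

/-- **KNP** -/
theorem knp (h1 : Wr1Stmt) (h2 : Wr2Stmt) (hc : CanStmt) (h3 : Wr3Stmt) (hn : WrnStmt) :
    KnpStmt :=
  ⟨Quot.lift (fun D : Diagram => PW D.1)
    (fun D E h => step_inv h1 h2 hc h3 hn h D.2.1 D.2.2 E.2.1 E.2.2), fun _ => rfl⟩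

end Pool.Agent.VTP.H97
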